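import Pool.Agent.Helper56.FU.Fin

/-!
# Project FU: the matrices of the theorem exist, irreducible cubics
-/

set_option autoImplicit false

open Set Filter Topology Matrix
open Pool.Agent.Helper54.Wav

noncomputable section

namespace Pool.Agent.Helper56.FU

open Pool.Agent.Helper54.TRI
open Pool.Agent.Helper56.FM (Gq)

/-- the cubic polynomial -/
private def fEx (v w u : ℚ) : Polynomial ℚ :=
  Polynomial.X ^ 3 + Polynomial.C v * Polynomial.X ^ 2 + Polynomial.C w * Polynomial.X - Polynomial.C u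

private theorem fEx_natDegree (v w u : ℚ) : (fEx v w u).natDegree = 3 := by
  unfold fEx
  compute_degree!

private theorem fEx_monic (v w u : ℚ) : (fEx v w u).Monic := by
  unfold fEx
  monicity!

private theorem fEx_aeval (v w u : ℚ) (z : ℂ) :
    Polynomial.aeval z (fEx v w u) = z ^ 3 + (v : ℂ) * z ^ 2 + (w : ℂ) * z - (u : ℂ) := by
  simp [fEx]

private theorem fEx_irr (v w u : ℚ) (hx : ∀ x : ℚ, x ^ 3 + v * x ^ 2 + w * x ≠ u) :
    Irreducible (fEx v w u) := by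
  rw [Polynomial.irreducible_iff_roots_eq_zero_of_degree_le_three
    (by rw [fEx_natDegree]; norm_num) (by rw [fEx_natDegree])]
  rw [Multiset.eq_zero_iff_forall_notMem]
  intro x hmem
  have h1 := (Polynomial.mem_roots'.1 hmem).2
  have h2 : x ^ 3 + v * x ^ 2 + w * x - u = 0 := by
    simpa [fEx, Polynomial.IsRoot] using h1
  exact hx x (sub_eq_zero.1 h2)

/-- a rational power of one root is a rational power of the other one -/
private theorem fEx_transfer (v w u : ℚ) (hx : ∀ x : ℚ, x ^ 3 + v * x ^ 2 + w * x ≠ u) (a b : ℂ)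
    (ha : a ^ 3 + v * a ^ 2 + w * a = (u : ℂ)) (hb : b ^ 3 + v * b ^ 2 + w * b = (u : ℂ)) (n : ℕ)
    (q : ℚ) (h : a ^ n = (q : ℂ)) : b ^ n = (q : ℂ) := by
  have ha0 : Polynomial.aeval a (fEx v w u) = 0 := by rw [fEx_aeval, ha, sub_self]
  have hb0 : Polynomial.aeval b (fEx v w u) = 0 := by rw [fEx_aeval, hb, sub_self]
  have hm : fEx v w u = minpoly ℚ a :=
    minpoly.eq_of_irreducible_of_monic (fEx_irr v w u hx) ha0 (fEx_monic v w u)
  have hd : fEx v w u ∣ Polynomial.X ^ n - Polynomial.C q := by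
    rw [hm]
    apply minpoly.dvd
    simp [h]
  obtain ⟨g, hg⟩ := hd
  have h3 : Polynomial.aeval b (Polynomial.X ^ n - Polynomial.C q : Polynomial ℚ) = 0 := by
    rw [hg, map_mul, hb0, zero_mul]
  have h4 : b ^ n - (q : ℂ) = 0 := by simpa using h3
  exact sub_eq_zero.1 h4

/-- The real root belonging to a non-real root. -/
theorem real_root {v w u : ℚ} {β : ℂ} (hβ : β ^ 3 + (v : ℂ) * β ^ 2 + (w : ℂ) * β = (u : ℂ))
    (him : β.im ≠ 0) : ∃ t : ℝ, t ^ 3 + (v : ℝ) * t ^ 2 + (w : ℝ) * t = (u : ℝ) ∧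
      2 * β.re = -((v : ℝ) + t) ∧ Complex.normSq β = t ^ 2 + v * t + w := by
  obtain ⟨x, hx⟩ : ∃ x, x = β.re := ⟨_, rfl⟩
  obtain ⟨y, hy⟩ : ∃ y, y = β.im := ⟨_, rfl⟩
  have e : β = ⟨x, y⟩ := by rw [hx, hy]
  have hy0 : y ≠ 0 := by rw [hy]; exact him
  rw [e] at hβ
  have h1 := congrArg Complex.re hβ
  have h2 := congrArg Complex.im hβ
  simp [pow_succ] at h1 h2
  have h3 : 3 * x ^ 2 - y ^ 2 + 2 * v * x + w = 0 := by
    apply mul_left_cancel₀ hy0
    linear_combination h2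
  have hn : Complex.normSq β = x ^ 2 + y ^ 2 := by
    rw [Complex.normSq_apply, ← hx, ← hy]; ring
  refine ⟨-(v : ℝ) - 2 * x, ?_, ?_, ?_⟩
  · linear_combination h1 - (v + 2 * x + x) * h3
  · rw [← hx]; ring
  · rw [hn]
    linear_combination -h3

/-- No power of a root of an irreducible cubic with a non-real root is rational, unless the cubic is pure. -/
theorem no_rat {v w u : ℚ} (hirr : ∀ x : ℚ, x ^ 3 + v * x ^ 2 + w * x ≠ u) (hvw : v ≠ 0 ∨ w ≠ 0)
    {β : ℂ} (hβ : β ^ 3 + (v : ℂ) * β ^ 2 + (w : ℂ) * β = (u : ℂ)) {t : ℝ}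
    (ht : t ^ 3 + (v : ℝ) * t ^ 2 + (w : ℝ) * t = (u : ℝ))
    (hns : Complex.normSq β = t ^ 2 + v * t + w) (n : ℕ) (hn : n ≠ 0) (q : ℚ) :
    β ^ n ≠ (q : ℂ) ∧ t ^ n ≠ (q : ℝ) := by
  have hrc : (t : ℂ) ^ 3 + (v : ℂ) * (t : ℂ) ^ 2 + (w : ℂ) * (t : ℂ) = (u : ℂ) := by
    have h2 : ((t ^ 3 + v * t ^ 2 + w * t : ℝ) : ℂ) = ((u : ℝ) : ℂ) := by rw [ht]
    push_cast at h2
    exact h2
  have hboth : ¬ (β ^ n = (q : ℂ) ∧ (t : ℂ) ^ n = (q : ℂ)) := by
    rintro ⟨h1, h2⟩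
    have h4 : ‖β‖ ^ n = |t| ^ n := by
      have h4 : ‖β ^ n‖ = ‖(t : ℂ) ^ n‖ := by rw [h1, h2]
      rwa [norm_pow, norm_pow, Complex.norm_real, Real.norm_eq_abs] at h4
    have h5 : ‖β‖ = |t| := (pow_left_inj₀ (norm_nonneg β) (abs_nonneg t) hn).1 h4
    have h6 : Complex.normSq β = ‖β‖ ^ 2 := Complex.normSq_eq_norm_sq β
    rw [h5, sq_abs] at h6
    rw [h6] at hns
    have h7 : (v : ℝ) * t + w = 0 := by linarith
    by_cases hv : v = 0
    · rcases hvw with h | h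
      · exact h hv
      · rw [hv] at h7
        apply h
        have h8 : (w : ℝ) = 0 := by simpa using h7
        exact_mod_cast h8
    · have hv' : (v : ℝ) ≠ 0 := by exact_mod_cast hv
      have h8 : t = ((-w / v : ℚ) : ℝ) := by
        push_cast
        rw [eq_div_iff hv']
        linarith
      rw [h8] at ht
      exact hirr (-w / v) (by exact_mod_cast ht)
  constructor
  · intro h1
    exact hboth ⟨h1, fEx_transfer v w u hirr β t hβ hrc n q h1⟩
  · intro h1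
    have h2 : (t : ℂ) ^ n = (q : ℂ) := by
      have h3 : ((t ^ n : ℝ) : ℂ) = ((q : ℝ) : ℂ) := by rw [h1]
      push_cast at h3
      exact h3
    exact hboth ⟨fEx_transfer v w u hirr t β hrc hβ n q h2, h2⟩

/-- The number `β` of an irreducible cubic which is not pure. -/
theorem cubN_root {v w u : ℚ} (hirr : ∀ x : ℚ, x ^ 3 + v * x ^ 2 + w * x ≠ u) (hvw : v ≠ 0 ∨ w ≠ 0)
    {β : ℂ} (hβ : β ^ 3 + (v : ℂ) * β ^ 2 + (w : ℂ) * β = (u : ℂ)) (him : β.im ≠ 0)
    (h1 : 1 < ‖β‖) : CubN β where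
  one_lt := h1
  im := him
  cub := ⟨-v, -w, u, by push_cast; linear_combination hβ⟩
  nrat := by
    obtain ⟨t, ht, -, hns⟩ := real_root hβ him
    intro n hn q
    exact (no_rat hirr hvw hβ ht hns n hn q).1

/-- The matrices with determinant `|β|²` have no rational power. -/
theorem no_rational_power {v w u : ℚ} (hirr : ∀ x : ℚ, x ^ 3 + v * x ^ 2 + w * x ≠ u)
    (hvw : v ≠ 0 ∨ w ≠ 0)
    {β : ℂ} (hβ : β ^ 3 + (v : ℂ) * β ^ 2 + (w : ℂ) * β = (u : ℂ)) (him : β.im ≠ 0)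
    {A : Matrix (Fin 2) (Fin 2) ℝ} (hdet : A.det = Complex.normSq β) :
    ¬ Pool.Agent.Helper54.WavS.HasRationalPower A := by
  rintro ⟨p, M, hp, hM⟩
  obtain ⟨t, ht, -, hnorm⟩ := real_root hβ him
  have hpos : 0 < Complex.normSq β := by
    rw [Complex.normSq_pos]
    intro h0
    apply him
    rw [h0, Complex.zero_im]
  rw [hnorm] at hpos
  have hdetM : ((M.det : ℚ) : ℝ) = (t ^ 2 + v * t + w) ^ p := by
    have h7 := congrArg Matrix.det hM
    rw [Matrix.det_pow, hdet, hnorm] at h7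
    rw [h7]
    have h8 := RingHom.map_det (algebraMap ℚ ℝ) M
    rw [RingHom.mapMatrix_apply] at h8
    rw [← h8]
    rfl
  have hne : ((M.det : ℚ) : ℝ) ≠ 0 := by
    rw [hdetM]
    exact pow_ne_zero _ hpos.ne'
  have hrs : t * (t ^ 2 + v * t + w) = (u : ℝ) := by
    rw [← ht]; ring
  refine (no_rat hirr hvw hβ ht hnorm p hp.ne' (u ^ p / M.det)).2 ?_
  rw [Rat.cast_div, Rat.cast_pow, eq_div_iff hne, hdetM, ← mul_pow, hrs]

/-- Expansive companion matrices. -/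
theorem companion {β : ℂ} (h1 : 1 < ‖β‖) {A : Matrix (Fin 2) (Fin 2) ℝ} (hT : A.trace = 2 * β.re)
    (hD : A.det = Complex.normSq β) : _root_.Wav.Expansive A := by
  intro z hz
  rw [Matrix.mem_spectrum_iff_isRoot_charpoly, Polynomial.IsRoot.def, Matrix.charpoly_fin_two] at hz
  have e1 : (A.map (algebraMap ℝ ℂ)).trace = (A.trace : ℂ) := by
    rw [Matrix.trace_fin_two, Matrix.trace_fin_two]
    simp
  have e2 : (A.map (algebraMap ℝ ℂ)).det = (A.det : ℂ) := by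
    rw [Matrix.det_fin_two, Matrix.det_fin_two]
    simp
  rw [e1, e2] at hz
  simp only [Polynomial.eval_add, Polynomial.eval_sub, Polynomial.eval_pow, Polynomial.eval_X,
    Polynomial.eval_mul, Polynomial.eval_C] at hz
  have h2 : (z - β) * (z - starRingEnd ℂ β) = 0 := by
    have e3 : β + starRingEnd ℂ β = (A.trace : ℂ) := by
      rw [Complex.add_conj, hT]
    have e4 : β * starRingEnd ℂ β = (A.det : ℂ) := by
      rw [Complex.mul_conj, hD]
    calc (z - β) * (z - starRingEnd ℂ β) =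
        z ^ 2 - (β + starRingEnd ℂ β) * z + β * starRingEnd ℂ β := by ring
      _ = 0 := by rw [e3, e4]; exact hz
  rcases mul_eq_zero.1 h2 with h | h
  · rw [sub_eq_zero.1 h]; exact h1
  · rw [sub_eq_zero.1 h, RCLike.norm_conj]; exact h1

/-- **Existence** of the matrices, from the universal kernel. -/
theorem ex_uk {c : ℝ} (hUK : StUK c) {v w u : ℚ} (hirr : ∀ x : ℚ, x ^ 3 + v * x ^ 2 + w * x ≠ u)
    (hvw : v ≠ 0 ∨ w ≠ 0) {β : ℂ} (hβ : β ^ 3 + (v : ℂ) * β ^ 2 + (w : ℂ) * β = (u : ℂ))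
    (him : β.im ≠ 0) (h1 : 1 < ‖β‖) (hc : c < Complex.normSq β) :
    ∃ A : Matrix (Fin 2) (Fin 2) ℝ, _root_.Wav.Expansive A ∧ A.trace = 2 * β.re ∧
      A.det = Complex.normSq β ∧ ¬ Pool.Agent.Helper54.WavS.HasRationalPower A ∧
      (1 : ℤ) ∈ WavN.Exps A ∧ Pool.Agent.Helper54.WavS.HasSchwartzWavelet A := by
  have hT : (!![2 * β.re, -Complex.normSq β; 1, 0] : Matrix (Fin 2) (Fin 2) ℝ).trace = 2 * β.re := by
    rw [Matrix.trace_fin_two]; simp
  have hD : (!![2 * β.re, -Complex.normSq β; 1, 0] : Matrix (Fin 2) (Fin 2) ℝ).det =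
      Complex.normSq β := by
    rw [Matrix.det_fin_two]; simp
  have hE := companion h1 hT hD
  have hex : ∃ p q : Fin 2 → ℤ, q ≠ 0 ∧
      zv p = (!![2 * β.re, -Complex.normSq β; 1, 0] : Matrix (Fin 2) (Fin 2) ℝ)ᵀ *ᵥ zv q := by
    refine ⟨![1, 0], ![0, 1], ?_, ?_⟩
    · intro h
      have := congrFun h 1
      simp at this
    · funext i
      fin_cases i <;> simp [zv]
  obtain ⟨p, q, hq, hpq⟩ := hex
  exact ⟨_, hE, hT, hD, no_rational_power hirr hvw hβ him hD,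
    Pool.Agent.Helper56.FM.one_mem_exps (_root_.Wav.expansive_det hE) hq hpq,
    wavelet_of_uk hUK (p' := v) (q' := w) (r' := -u) (cubN_root hirr hvw hβ him h1)
      (by push_cast; linear_combination hβ) (fun x hx => hirr x (by linarith)) hc hT hD
      ⟨p, q, hq, hpq⟩⟩

end Pool.Agent.Helper56.FU
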