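import Pool.Agent.Helper56.FM.All

/-!
# Project FU (MP_d629b1, n = 2): the final theorem from the universal kernel
-/

set_option autoImplicit false

open Set Filter Topology Matrix
open Pool.Agent.Helper54.Wav

noncomputable section

namespace Pool.Agent.Helper56.FU

open Pool.Agent.Helper54.TRI
open Pool.Agent.Helper56.FM (Gq)

/-- A non-real complex number of modulus greater than one, of degree at most three over the rational
numbers, no power of it is rational. -/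
structure CubN (β : ℂ) : Prop where
  one_lt : 1 < ‖β‖
  im : β.im ≠ 0
  cub : ∃ a b c : ℚ, β ^ 3 = (a : ℂ) * β ^ 2 + (b : ℂ) * β + (c : ℂ)
  nrat : ∀ n : ℕ, n ≠ 0 → ∀ q : ℚ, β ^ n ≠ (q : ℂ)

/-- **UK** (the universal kernel for irreducible cubics, `|β|² > c`). -/
def StUK (c : ℝ) : Prop := ∀ (β : ℂ) (p q r : ℚ), CubN β →
  β ^ 3 + (p : ℂ) * β ^ 2 + (q : ℂ) * β + (r : ℂ) = 0 →
  (∀ x : ℚ, x ^ 3 + p * x ^ 2 + q * x + r ≠ 0) → c < Complex.normSq β →
  ∃ K Λ ε R, PatC β (Gq β 0) K Λ ε R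

/-- The complex conjugate. -/
theorem CubN.conj {β : ℂ} (h : CubN β) : CubN (starRingEnd ℂ β) where
  one_lt := by rw [RCLike.norm_conj]; exact h.one_lt
  im := by rw [Complex.conj_im]; exact neg_ne_zero.2 h.im
  cub := by
    obtain ⟨a, b, c, h1⟩ := h.cub
    refine ⟨a, b, c, ?_⟩
    have := congrArg (starRingEnd ℂ) h1
    simpa using this
  nrat := by
    intro n hn q hq
    apply h.nrat n hn q
    have := congrArg (starRingEnd ℂ) hq
    simpa using this

/-- The wavelet from the universal kernel. -/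
theorem wavelet_of_uk {c : ℝ} (hUK : StUK c) {β : ℂ} {p' q' r' : ℚ} (hβ : CubN β)
    (hcub : β ^ 3 + (p' : ℂ) * β ^ 2 + (q' : ℂ) * β + (r' : ℂ) = 0)
    (hirr : ∀ x : ℚ, x ^ 3 + p' * x ^ 2 + q' * x + r' ≠ 0) (hc : c < Complex.normSq β)
    {A : Matrix (Fin 2) (Fin 2) ℝ} (htr : A.trace = 2 * β.re) (hdet : A.det = Complex.normSq β)
    (hex : ∃ p q : Fin 2 → ℤ, q ≠ 0 ∧ zv p = Aᵀ *ᵥ zv q) :
    Pool.Agent.Helper54.WavS.HasSchwartzWavelet A := by
  obtain ⟨K, Λ, ε, R, hP⟩ := hUK β p' q' r' hβ hcub hirr hc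
  exact Pool.Agent.Helper56.FM.wavelet_of_kernel (Pool.Agent.Helper56.FM.m_LQ m_LAT)
    Pool.Agent.Helper56.TW.g_Red hβ.one_lt hβ.im hP htr hdet hex

/-- `A² = T A - D`. -/
theorem sq_eq (A : Matrix (Fin 2) (Fin 2) ℝ) :
    A ^ 2 = A.trace • A - A.det • (1 : Matrix (Fin 2) (Fin 2) ℝ) := by
  rw [Matrix.trace_fin_two, Matrix.det_fin_two, pow_two]
  ext i j
  fin_cases i <;> fin_cases j <;>
    simp [Matrix.mul_apply, Fin.sum_univ_two] <;> ring

/-- The eigenvalue of a matrix with non-real eigenvalues. -/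
theorem exists_eig (A : Matrix (Fin 2) (Fin 2) ℝ) (hnr : A.trace ^ 2 < 4 * A.det) :
    ∃ β : ℂ, 0 < β.im ∧ A.trace = 2 * β.re ∧ A.det = Complex.normSq β := by
  have h0 : 0 < A.det - A.trace ^ 2 / 4 := by linarith
  refine ⟨⟨A.trace / 2, Real.sqrt (A.det - A.trace ^ 2 / 4)⟩, Real.sqrt_pos.2 h0, ?_, ?_⟩
  · show A.trace = 2 * (A.trace / 2)
    ring
  · rw [Complex.normSq_mk, Real.mul_self_sqrt h0.le]
    ring

/-- The quadratic equation of `β`. -/
theorem quad {β : ℂ} {T D : ℝ} (hT : T = 2 * β.re) (hD : D = Complex.normSq β) :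
    β ^ 2 = (T : ℂ) * β - (D : ℂ) := by
  rw [hT, hD]
  apply Complex.ext
  · simp [Complex.normSq_apply, pow_two]
    ring
  · simp [Complex.normSq_apply, pow_two]
    ring

/-- Powers of `A` and of `β` have the same coordinates. -/
theorem pow_coord (A : Matrix (Fin 2) (Fin 2) ℝ) {β : ℂ} (hT : A.trace = 2 * β.re)
    (hD : A.det = Complex.normSq β) (n : ℕ) :
    ∃ x y : ℝ, A ^ n = x • A + y • (1 : Matrix (Fin 2) (Fin 2) ℝ) ∧
      β ^ n = (x : ℂ) * β + (y : ℂ) := by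
  induction n with
  | zero => exact ⟨0, 1, by simp, by simp⟩
  | succ n ih =>
    obtain ⟨x, y, h1, h2⟩ := ih
    refine ⟨x * A.trace + y, -(x * A.det), ?_, ?_⟩
    · rw [pow_succ, h1, add_mul, smul_mul_assoc, smul_mul_assoc, one_mul, ← pow_two, sq_eq, smul_sub,
        smul_smul, smul_smul, add_smul, neg_smul]
      abel
    · rw [pow_succ, h2]
      have := quad hT hD
      push_cast
      linear_combination (x : ℂ) * this

/-- A real polynomial relation of `A` and of `β`. -/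
theorem rel_iff (A : Matrix (Fin 2) (Fin 2) ℝ) {β : ℂ} (him : β.im ≠ 0) (hT : A.trace = 2 * β.re)
    (hD : A.det = Complex.normSq β) (x y : ℝ)
    (h : x • A + y • (1 : Matrix (Fin 2) (Fin 2) ℝ) = 0) : x = 0 ∧ y = 0 := by
  have hx : x = 0 := by
    by_contra hx
    have h1 : A = (-(y / x)) • (1 : Matrix (Fin 2) (Fin 2) ℝ) := by
      have h2 : x • A = (-y) • (1 : Matrix (Fin 2) (Fin 2) ℝ) := by
        rw [neg_smul]; exact eq_neg_of_add_eq_zero_left h
      have h3 : A = x⁻¹ • (x • A) := by rw [smul_smul, inv_mul_cancel₀ hx, one_smul]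
      rw [h3, h2, smul_smul]
      congr 1
      field_simp
    rw [h1] at hT hD
    simp only [Matrix.trace_smul, Matrix.trace_one, Fintype.card_fin, Matrix.det_smul, Matrix.det_one,
      smul_eq_mul, mul_one, Nat.cast_ofNat] at hT hD
    rw [Complex.normSq_apply] at hD
    have h4 : 0 < β.im * β.im := mul_self_pos.2 him
    have h5 : β.re = -(y / x) := by linarith
    rw [h5] at hD
    nlinarith
  refine ⟨hx, ?_⟩
  rw [hx, zero_smul, zero_add] at h
  have := congrFun (congrFun h 0) 0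
  simpa using this

/-- Expansive matrices with non-real eigenvalues. -/
theorem one_lt_det {A : Matrix (Fin 2) (Fin 2) ℝ} (hE : _root_.Wav.Expansive A) {β : ℂ}
    (hT : A.trace = 2 * β.re) (hD : A.det = Complex.normSq β) : 1 < ‖β‖ := by
  apply hE
  rw [Matrix.mem_spectrum_iff_isRoot_charpoly, Polynomial.IsRoot.def, Matrix.charpoly_fin_two]
  have e1 : (A.map (algebraMap ℝ ℂ)).trace = (A.trace : ℂ) := by
    rw [Matrix.trace_fin_two, Matrix.trace_fin_two]
    simp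
  have e2 : (A.map (algebraMap ℝ ℂ)).det = (A.det : ℂ) := by
    rw [Matrix.det_fin_two, Matrix.det_fin_two]
    simp
  rw [e1, e2]
  simp only [Polynomial.eval_add, Polynomial.eval_sub, Polynomial.eval_pow, Polynomial.eval_X,
    Polynomial.eval_mul, Polynomial.eval_C]
  have := quad hT hD
  rw [this]
  ring

/-- The cubic equation of `β`. -/
theorem cub_of {A : Matrix (Fin 2) (Fin 2) ℝ} {v w u : ℚ}
    (h : A ^ 3 + (v : ℝ) • A ^ 2 + (w : ℝ) • A = (u : ℝ) • (1 : Matrix (Fin 2) (Fin 2) ℝ))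
    {β : ℂ} (him : β.im ≠ 0)
    (hT : A.trace = 2 * β.re) (hD : A.det = Complex.normSq β) :
    β ^ 3 + (v : ℂ) * β ^ 2 + (w : ℂ) * β = (u : ℂ) := by
  obtain ⟨x3, y3, a3, b3⟩ := pow_coord A hT hD 3
  obtain ⟨x2, y2, a2, b2⟩ := pow_coord A hT hD 2
  rw [a3, a2] at h
  have h1 : (x3 + v * x2 + w) • A + (y3 + v * y2 - u) • (1 : Matrix (Fin 2) (Fin 2) ℝ) = 0 := by
    rw [← sub_eq_zero] at h
    rw [← h]
    simp only [add_smul, sub_smul, smul_add, mul_smul]
    abel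
  obtain ⟨h2, h4⟩ := rel_iff A him hT hD _ _ h1
  have h5 : ((x3 : ℂ) + v * x2 + w) = 0 := by exact_mod_cast congrArg (fun z : ℝ => (z : ℂ)) h2
  have h6 : ((y3 : ℂ) + v * y2 - u) = 0 := by exact_mod_cast congrArg (fun z : ℝ => (z : ℂ)) h4
  linear_combination b3 + (v : ℂ) * b2 + β * h5 + h6

/-- The number `β` of a matrix of the theorem. -/
theorem cubN_of {A : Matrix (Fin 2) (Fin 2) ℝ} (hE : _root_.Wav.Expansive A) {v w u : ℚ}
    (h : A ^ 3 + (v : ℝ) • A ^ 2 + (w : ℝ) • A = (u : ℝ) • (1 : Matrix (Fin 2) (Fin 2) ℝ))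
    (hnp : ¬ Pool.Agent.Helper54.WavS.HasRationalPower A) {β : ℂ} (him : β.im ≠ 0)
    (hT : A.trace = 2 * β.re) (hD : A.det = Complex.normSq β) : CubN β where
  one_lt := one_lt_det hE hT hD
  im := him
  cub := by
    refine ⟨-v, -w, u, ?_⟩
    push_cast
    linear_combination cub_of h him hT hD
  nrat := by
    intro n hn q hq
    apply hnp
    obtain ⟨x, y, h1, h2⟩ := pow_coord A hT hD n
    rw [hq] at h2
    have hx : x = 0 := by
      have := congrArg Complex.im h2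
      simp at this
      exact this.resolve_right him
    have hy : y = (q : ℝ) := by
      rw [hx] at h2
      have := congrArg Complex.re h2
      simp at this
      exact this.symm
    refine ⟨n, q • (1 : Matrix (Fin 2) (Fin 2) ℚ), Nat.pos_of_ne_zero hn, ?_⟩
    rw [h1, hx, hy, zero_smul, zero_add]
    ext i j
    by_cases hij : i = j
    · simp [hij]
    · simp [hij]

/-- A matrix with rational trace and determinant, no real eigenvalue, and an integer vector with integer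
image is rational. -/
theorem rational_of {A : Matrix (Fin 2) (Fin 2) ℝ} (hnr : A.trace ^ 2 < 4 * A.det) {T D : ℚ}
    (hT : A.trace = T) (hD : A.det = D) {p q : Fin 2 → ℤ} (hq : q ≠ 0) (h : zv p = Aᵀ *ᵥ zv q) :
    Pool.Agent.Helper54.WavS.HasRationalPower A := by
  rw [Matrix.trace_fin_two] at hT hnr
  rw [Matrix.det_fin_two] at hD hnr
  have e0 : (p 0 : ℝ) = A 0 0 * q 0 + A 1 0 * q 1 := by
    have := congrFun h 0
    simpa [zv, Matrix.mulVec, dotProduct, Fin.sum_univ_two] using this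
  have e1 : (p 1 : ℝ) = A 0 1 * q 0 + A 1 1 * q 1 := by
    have := congrFun h 1
    simpa [zv, Matrix.mulVec, dotProduct, Fin.sum_univ_two] using this
  obtain ⟨Δ, hΔ⟩ : ∃ Δ : ℚ, Δ = (q 0 : ℚ) * p 1 - q 1 * p 0 := ⟨_, rfl⟩
  have hΔr : (Δ : ℝ) = (q 0 : ℝ) * p 1 - q 1 * p 0 := by rw [hΔ]; push_cast; ring
  have hne : (Δ : ℝ) ≠ 0 := by
    intro h0
    rw [h0] at hΔr
    have h1 : A 0 1 * (q 0 : ℝ) ^ 2 + (A 1 1 - A 0 0) * q 0 * q 1 - A 1 0 * (q 1 : ℝ) ^ 2 = 0 := by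
      rw [e0, e1] at hΔr
      linear_combination -hΔr
    have h2 : 0 < -(A 0 1 * A 1 0) := by nlinarith [sq_nonneg (A 0 0 - A 1 1)]
    have h3 : A 0 1 ≠ 0 := by
      intro h3
      rw [h3, zero_mul, neg_zero] at h2
      exact lt_irrefl _ h2
    have h4 : (2 * A 0 1 * q 0 + (A 1 1 - A 0 0) * q 1) ^ 2 +
        (4 * (A 0 0 * A 1 1 - A 0 1 * A 1 0) - (A 0 0 + A 1 1) ^ 2) * (q 1 : ℝ) ^ 2 = 0 := by
      linear_combination (4 * A 0 1) * h1
    have h5 : 0 < 4 * (A 0 0 * A 1 1 - A 0 1 * A 1 0) - (A 0 0 + A 1 1) ^ 2 := by linarith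
    have h6 : (q 1 : ℝ) = 0 := by
      by_contra h6
      have h7 : 0 < (q 1 : ℝ) ^ 2 := by positivity
      have h8 := mul_pos h5 h7
      have h9 := sq_nonneg (2 * A 0 1 * q 0 + (A 1 1 - A 0 0) * q 1)
      linarith
    rw [h6] at h4
    have h7 : (2 * A 0 1 * (q 0 : ℝ)) ^ 2 = 0 := by linear_combination h4
    have h8 := pow_eq_zero_iff (two_ne_zero) |>.1 h7
    have h9 : (q 0 : ℝ) = 0 := by
      rcases mul_eq_zero.1 h8 with h | h
      · exact absurd (by linarith : A 0 1 = 0) h3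
      · exact h
    apply hq
    funext i
    fin_cases i
    · exact_mod_cast h9
    · exact_mod_cast h6
  refine ⟨1, !![(p 0 * p 1 - (T * p 0 - D * q 0) * q 1) / Δ, (p 1 * p 1 - (T * p 1 - D * q 1) * q 1) / Δ;
    (-(p 0 * p 0) + (T * p 0 - D * q 0) * q 0) / Δ, (-(p 1 * p 0) + (T * p 1 - D * q 1) * q 0) / Δ],
    one_pos, ?_⟩
  rw [pow_one]
  ext i j
  fin_cases i <;> fin_cases j
  · simp only [Fin.zero_eta, Matrix.map_apply, Matrix.of_apply, Matrix.cons_val', Matrix.cons_val_zero,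
      Matrix.cons_val_fin_one, eq_ratCast]
    push_cast
    rw [eq_div_iff hne, hΔr, ← hT, ← hD, e0, e1]
    ring
  · simp only [Fin.zero_eta, Fin.mk_one, Matrix.map_apply, Matrix.of_apply, Matrix.cons_val',
      Matrix.cons_val_zero, Matrix.cons_val_one, Matrix.cons_val_fin_one, eq_ratCast]
    push_cast
    rw [eq_div_iff hne, hΔr, ← hT, ← hD, e0, e1]
    ring
  · simp only [Fin.zero_eta, Fin.mk_one, Matrix.map_apply, Matrix.of_apply, Matrix.cons_val',
      Matrix.cons_val_zero, Matrix.cons_val_one, Matrix.cons_val_fin_one, eq_ratCast]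
    push_cast
    rw [eq_div_iff hne, hΔr, ← hT, ← hD, e0, e1]
    ring
  · simp only [Fin.zero_eta, Fin.mk_one, Matrix.map_apply, Matrix.of_apply, Matrix.cons_val',
      Matrix.cons_val_zero, Matrix.cons_val_one, Matrix.cons_val_fin_one, eq_ratCast]
    push_cast
    rw [eq_div_iff hne, hΔr, ← hT, ← hD, e0, e1]
    ring

/-- If the cubic has a rational root then trace and determinant are rational. -/
theorem quad_rational {A : Matrix (Fin 2) (Fin 2) ℝ} {v w u : ℚ} {β : ℂ} (him : β.im ≠ 0)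
    (hT : A.trace = 2 * β.re) (hD : A.det = Complex.normSq β)
    (h : β ^ 3 + (v : ℂ) * β ^ 2 + (w : ℂ) * β = (u : ℂ)) {x : ℚ}
    (hx : x ^ 3 + v * x ^ 2 + w * x + -u = 0) :
    A.trace = ((-(v + x) : ℚ) : ℝ) ∧ A.det = ((x ^ 2 + v * x + w : ℚ) : ℝ) := by
  have hx' : (x : ℂ) ^ 3 + v * (x : ℂ) ^ 2 + w * x + -u = 0 := by exact_mod_cast congrArg (fun z : ℚ => (z : ℂ)) hx
  have h1 : (β - x) * (β ^ 2 + (v + x) * β + (x ^ 2 + v * x + w)) = 0 := by
    linear_combination h - hx'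
  have h2 : β - x ≠ 0 := by
    intro h2
    apply him
    rw [sub_eq_zero.1 h2]
    exact Complex.ratCast_im x
  have h3 := (mul_eq_zero.1 h1).resolve_left h2
  have h4 := quad hT hD
  have h5 : (A.trace + (v + x) : ℂ) * β + ((x ^ 2 + v * x + w) - A.det : ℂ) = 0 := by
    linear_combination h3 - h4
  have h6 : ((A.trace + (v + x) : ℝ) : ℂ) * β + (((x ^ 2 + v * x + w) - A.det : ℝ) : ℂ) = 0 := by
    push_cast
    exact h5
  have h7 := congrArg Complex.im h6
  rw [Complex.add_im, Complex.im_ofReal_mul, Complex.ofReal_im, add_zero, Complex.zero_im] at h7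
  have h8 := (mul_eq_zero.1 h7).resolve_right him
  rw [h8, Complex.ofReal_zero, zero_mul, zero_add] at h6
  have h9 : (x ^ 2 + v * x + w : ℝ) - A.det = 0 := by exact_mod_cast h6
  constructor
  · push_cast
    linarith
  · push_cast
    linarith

/-- **The final theorem**, from the universal kernel. -/
theorem fin_uk {c : ℝ} (hUK : StUK c) (A : Matrix (Fin 2) (Fin 2) ℝ) (hE : _root_.Wav.Expansive A)
    (hnr : A.trace ^ 2 < 4 * A.det) (hc : c < A.det)
    (h3 : ∃ v w u : ℚ, A ^ 3 + (v : ℝ) • A ^ 2 + (w : ℝ) • A =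
      (u : ℝ) • (1 : Matrix (Fin 2) (Fin 2) ℝ))
    (hnp : ¬ Pool.Agent.Helper54.WavS.HasRationalPower A) :
    ((∃ N : ℝ, 2 < N ∧ WavN.HasWavelet N A) ↔ ∃ j : ℤ, j ≠ 0 ∧ j ∈ WavN.Exps A) ∧
    ((∃ j : ℤ, j ≠ 0 ∧ j ∈ WavN.Exps A) →
      (1 : ℤ) ∈ WavN.Exps A ∧ Pool.Agent.Helper54.WavS.HasSchwartzWavelet A) := by
  obtain ⟨v, w, u, h3⟩ := h3
  obtain ⟨β, him, hT, hD⟩ := exists_eig A hnr
  have hβ := cubN_of hE h3 hnp him.ne' hT hD
  have hcub := cub_of h3 him.ne' hT hD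
  have hJ : (∃ j : ℤ, j ≠ 0 ∧ j ∈ WavN.Exps A) →
      (1 : ℤ) ∈ WavN.Exps A ∧ Pool.Agent.Helper54.WavS.HasSchwartzWavelet A := by
    intro hj
    obtain ⟨p, q, hq, hpq⟩ := Pool.Agent.Helper56.FM.m_JJ β him.ne' hβ.cub hβ.nrat A hT hD hj
    have hirr : ∀ x : ℚ, x ^ 3 + v * x ^ 2 + w * x + -u ≠ 0 := by
      intro x hx
      obtain ⟨a1, a2⟩ := quad_rational him.ne' hT hD hcub hx
      exact hnp (rational_of hnr a1 a2 hq hpq)
    exact ⟨Pool.Agent.Helper56.FM.one_mem_exps (_root_.Wav.expansive_det hE) hq hpq,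
      wavelet_of_uk hUK (p' := v) (q' := w) (r' := -u) hβ
        (by push_cast; linear_combination hcub) hirr (by rw [← hD]; exact hc)
        hT hD ⟨p, q, hq, hpq⟩⟩
  refine ⟨⟨?_, ?_⟩, hJ⟩
  · rintro ⟨N, hN, hW⟩
    by_contra hcon
    have hcl := WavN.exps_closure (le_refl 2) hE hN hW
    have h0 : AddSubgroup.closure (WavN.Exps A) ≤ ⊥ := by
      rw [AddSubgroup.closure_le]
      intro j hj
      by_contra hj0
      exact hcon ⟨j, fun h => hj0 (by simp [h]), hj⟩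
    rw [hcl] at h0
    have h5 : (1 : ℤ) ∈ (⊥ : AddSubgroup ℤ) := h0 (AddSubgroup.mem_top 1)
    rw [AddSubgroup.mem_bot] at h5
    exact one_ne_zero h5
  · intro hj
    exact ⟨3, by norm_num, (hJ hj).2.hasWavelet _⟩

end Pool.Agent.Helper56.FU
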