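import Pool.Agent.Helper56.FU.Ex

/-!
# Project FU: polynomial form of the hypothesis
-/

set_option autoImplicit false

open Set Filter Topology Matrix

noncomputable section

namespace Pool.Agent.Helper56.FU

/-- A rational polynomial relation of degree at most three gives a cubic relation, unless `A` is a
rational multiple of the identity (which has real eigenvalues). -/
theorem cubic_of_poly {A : Matrix (Fin 2) (Fin 2) ℝ} (hnr : A.trace ^ 2 < 4 * A.det)
    (h : ∃ P : Polynomial ℚ, P ≠ 0 ∧ P.natDegree ≤ 3 ∧ Polynomial.aeval A P = 0) :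
    ∃ v w u : ℚ, A ^ 3 + (v : ℝ) • A ^ 2 + (w : ℝ) • A =
      (u : ℝ) • (1 : Matrix (Fin 2) (Fin 2) ℝ) := by
  obtain ⟨P, hP, hd, hA⟩ := h
  obtain ⟨β, him, hT, hD⟩ := exists_eig A hnr
  -- the coefficients
  obtain ⟨a, ha⟩ : ∃ a, a = P.coeff 3 := ⟨_, rfl⟩
  obtain ⟨b, hb⟩ : ∃ b, b = P.coeff 2 := ⟨_, rfl⟩
  obtain ⟨c, hc⟩ : ∃ c, c = P.coeff 1 := ⟨_, rfl⟩
  obtain ⟨d, hdd⟩ : ∃ d, d = P.coeff 0 := ⟨_, rfl⟩
  have e1 : (a : ℝ) • A ^ 3 + (b : ℝ) • A ^ 2 + (c : ℝ) • A +
      (d : ℝ) • (1 : Matrix (Fin 2) (Fin 2) ℝ) = 0 := by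
    have h1 : Polynomial.aeval A P = ∑ i ∈ Finset.range 4, P.coeff i • A ^ i :=
      Polynomial.aeval_eq_sum_range' (by omega) A
    rw [hA] at h1
    simp only [Finset.sum_range_succ, Finset.sum_range_zero, zero_add, pow_zero, pow_one, ← ha, ← hb,
      ← hc, ← hdd] at h1
    have e : ∀ (x : ℚ) (M : Matrix (Fin 2) (Fin 2) ℝ), x • M = (x : ℝ) • M := by
      intro x M
      exact (Rat.cast_smul_eq_qsmul ℝ x M).symm
    rw [e, e, e, e] at h1
    rw [h1]
    abel
  by_cases ha0 : a = 0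
  · -- degree at most two
    by_cases hb0 : b = 0
    · exfalso
      rw [ha0, hb0, Rat.cast_zero, zero_smul, zero_smul, zero_add, zero_add] at e1
      obtain ⟨h1, h2⟩ := rel_iff A him.ne' hT hD _ _ e1
      apply hP
      have hc0 : c = 0 := by exact_mod_cast h1
      have hd0 : d = 0 := by exact_mod_cast h2
      rw [Polynomial.ext_iff]
      intro n
      rw [Polynomial.coeff_zero]
      rcases Nat.lt_or_ge 3 n with hn | hn
      · exact Polynomial.coeff_eq_zero_of_natDegree_lt (by omega)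
      · interval_cases n
        · rw [← hdd]; exact hd0
        · rw [← hc]; exact hc0
        · rw [← hb]; exact hb0
        · rw [← ha]; exact ha0
    · refine ⟨c / b, d / b, 0, ?_⟩
      have hb' : (b : ℝ) ≠ 0 := by exact_mod_cast hb0
      rw [ha0, Rat.cast_zero, zero_smul, zero_add] at e1
      have h1 : A ^ 3 + ((c / b : ℚ) : ℝ) • A ^ 2 + ((d / b : ℚ) : ℝ) • A =
          ((b : ℝ)⁻¹ • A) * ((b : ℝ) • A ^ 2 + (c : ℝ) • A + (d : ℝ) • (1 : Matrix (Fin 2) (Fin 2) ℝ)) := by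
        push_cast
        rw [mul_add, mul_add, smul_mul_smul_comm, smul_mul_smul_comm, smul_mul_smul_comm, mul_one,
          inv_mul_cancel₀ hb', one_smul, ← pow_succ', ← pow_two]
        simp only [div_eq_inv_mul]
      rw [h1, e1, mul_zero, Rat.cast_zero, zero_smul]
  · refine ⟨b / a, c / a, -(d / a), ?_⟩
    have ha' : (a : ℝ) ≠ 0 := by exact_mod_cast ha0
    have h1 : (a : ℝ)⁻¹ • ((a : ℝ) • A ^ 3 + (b : ℝ) • A ^ 2 + (c : ℝ) • A +
      (d : ℝ) • (1 : Matrix (Fin 2) (Fin 2) ℝ)) = 0 := by rw [e1, smul_zero]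
    rw [smul_add, smul_add, smul_add, smul_smul, smul_smul, smul_smul, smul_smul,
      inv_mul_cancel₀ ha', one_smul] at h1
    push_cast
    simp only [div_eq_inv_mul]
    rw [neg_smul]
    exact eq_neg_of_add_eq_zero_left h1

end Pool.Agent.Helper56.FU
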